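import Pool.Agent.Q328.VD.Window

/-!
# The points of an isogeny orbit are rare near every integral point of a family of abelian varieties, uniformly in the orbit

Let `V` be an open subset of the affine space of dimension `d` over `𝓞 k[1/N]`, `k` a number field, with a family `A` of
polarized abelian varieties, that is, with a morphism to a moduli space `Γ \ X⁺`, for example the Jacobians of the curves
`y ^ 2 = f(x)` with all coefficients of `f` as parameters. Let `x` be a Hodge generic point of an arbitrary Shimura datum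
`(M, X_M)`. The points `t` of `V` at which the Mumford-Tate group of `A_t` is the full symplectic group of similitudes and which belong to
the adjoint-isomorphism orbit `Σ(M, X_M, x)` of the problem are contained in finitely many isogeny classes over `ℚ̄`, one for each simple
factor of `M^ad` at most (a homomorphism from `M^ad` onto the simple group `PGSp_2g` factors through a simple factor of `M^ad` isomorphic
to `PGSp_2g`, and all automorphisms of the group `PGSp_2g` are inner; an equality of the adjoint points is an isogeny). In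
particular the generalised Hecke orbit of a Hodge generic point `x` is contained in one isogeny class. Q1 implies that such
an orbit is not dense in `V`, if `V` is not weakly special.

**Theorem.** Suppose that there are a set `P` of prime numbers with at least `y ^ θ` elements up to `y` for large `y` and `κ > 0` such
that for `p ∈ P` and every residue class `x'` modulo `p` there are at least `κ p ^ d` good residue classes `x` modulo `p` at which
no power of the Frobenius element has the same characteristic polynomial as at `x'` (if the monodromy group of the family is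
the full symplectic group, these are almost all residue classes, for large `p`: Chavdarov, Kowalski). Let an
ARBITRARY integral point be given, whose coordinates have at most `K` digits in base `b`. Choose for each coordinate `r` of the `K`
positions and replace the digits at these positions by arbitrary other digits; let `C log K ≤ r ≤ K / 2`. Then **for every
abelian variety `B` over `ℚ̄` the new point `t` has a member `A_t` isogenous to `B` over `ℚ̄` for at most a proportion `K ^ (-B₀)` of the
choices.** Here `B₀` is arbitrary and `C`, `K₀` depend only on the family, `P`, `κ`, `θ`, `b` and `B₀`: the bound is uniform in the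
abelian variety `B` (which may have bad reduction at all the primes used, and may be one of the members `A_t` of the neighbourhood),
in the point and in the new digits. So the `K ^ O(log K)` new points near every integral point meet at least `K ^ (B₀)`
isogeny classes, and every union of `K ^ O(1)` orbits has a very small proportion of them.

In Lean the abelian variety `B` is given by an arbitrary `ℓ`-adic representation `σ` of a subgroup `Γ₀` of the Galois group
`Γ`, for one prime number `ℓ`, and instead of the isogeny over `ℚ̄` we use the weaker relation `Isogenous`: there is a linear isomorphism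
of the rational Tate modules which is equivariant up to signs under a subgroup of finite index of `Γ`. (An isomorphism of
the adjoint representations gives such an isomorphism, because the similitude characters are equal.)

The proof: two members in the same class have the same characteristic polynomials of a power of the Frobenius element at every
prime number at which both are good. So all new points in the class avoid, for all `p ∈ P`, `p ≠ ℓ`, the large set of residue classes
different from one of them. The law for the residues, modulo many small primes, of vectors of which few digits are changed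
(`Pool.Agent.Q328.VD.window`) is uniform in these sets.
-/

set_option autoImplicit false

namespace Pool.Agent.Results.MP_7e5527_ag.FewDigitOrbits

open Module Polynomial

/-- The residue class modulo `p` of an integral point `t`. -/
def red {d : ℕ} (p : ℕ) (t : Fin d → ℤ) : Fin d → ZMod p := fun j => (t j : ZMod p)

section data

variable {k V Γ : Type} [Field k] [AddCommGroup V] [Module k V] [Group Γ]

/-- The characteristic polynomial of `γ` is the polynomial `Q` with rational coefficients. -/
def HasCharpoly [CharZero k] [FiniteDimensional k V] (ρ : Representation k Γ V) (γ : Γ) (Q : ℚ[X]) : Prop :=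
  (ρ γ).charpoly = Q.map (algebraMap ℚ k)

/-- `f` carries the endomorphism `a` to the endomorphism `b` or to `-b`. -/
def Carries (f : V ≃ₗ[k] V) (a b : V →ₗ[k] V) : Prop :=
  (∀ v, f (a v) = b (f v)) ∨ ∀ v, f (a v) = - b (f v)

/-- There is a linear isomorphism between the representation `ρ` of `Γ` and the representation `σ` of the subgroup `Γ₀` of `Γ` which is
equivariant up to signs under a subgroup of `Γ₀` of finite index in `Γ`. -/
def Isogenous (ρ : Representation k Γ V) {Γ₀ : Subgroup Γ} (σ : Representation k Γ₀ V) : Prop :=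
  ∃ Δ : Subgroup Γ, Δ.FiniteIndex ∧ Δ ≤ Γ₀ ∧ ∃ f : V ≃ₗ[k] V, ∀ g : Γ₀, (g : Γ) ∈ Δ → Carries f (ρ g) (σ g)

/-- If two representations are isogenous to the same one, a power of every element has the same characteristic polynomial on
both. -/
lemma charpoly_eq [FiniteDimensional k V] {ρ ρ' : Representation k Γ V} {Γ₀ : Subgroup Γ} {σ : Representation k Γ₀ V}
    (h : Isogenous ρ σ) (h' : Isogenous ρ' σ) (γ : Γ) :
    ∃ n : ℕ, 0 < n ∧ (ρ (γ ^ n)).charpoly = (ρ' (γ ^ n)).charpoly := by
  obtain ⟨Δ, hΔ, hle, f, hf⟩ := h
  obtain ⟨Δ', hΔ', hle', f', hf'⟩ := h'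
  have hfin : (Δ ⊓ Δ').FiniteIndex := inferInstance
  obtain ⟨n, hn, -, hmem⟩ := Subgroup.exists_pow_mem_of_index_ne_zero hfin.index_ne_zero γ
  refine ⟨2 * n, by omega, ?_⟩
  have h1 := hf ⟨γ ^ n, hle hmem.1⟩ hmem.1
  have h2 := hf' ⟨γ ^ n, hle hmem.1⟩ hmem.2
  unfold Carries at h1 h2
  obtain ⟨g, hg⟩ : ∃ g : V ≃ₗ[k] V, g = f.trans f'.symm := ⟨_, rfl⟩
  have h3 : (∀ v, g (ρ (γ ^ n) v) = ρ' (γ ^ n) (g v)) ∨ ∀ v, g (ρ (γ ^ n) v) = - ρ' (γ ^ n) (g v) := by
    have key : ∀ v, f' (g v) = f v := fun v => by rw [hg]; simp
    rcases h1 with h1 | h1 <;> rcases h2 with h2 | h2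
    · left
      intro v
      apply f'.injective
      rw [key, h1, h2, key]
    · right
      intro v
      apply f'.injective
      rw [key, h1, map_neg, h2, key, neg_neg]
    · right
      intro v
      apply f'.injective
      rw [key, h1, map_neg, h2, key]
    · left
      intro v
      apply f'.injective
      rw [key, h1, h2, key]
  have h4 : ∀ v, g (ρ (γ ^ (2 * n)) v) = ρ' (γ ^ (2 * n)) (g v) := by
    intro v
    have e : γ ^ (2 * n) = γ ^ n * γ ^ n := by rw [two_mul, pow_add]
    rw [e, map_mul, map_mul, Module.End.mul_apply, Module.End.mul_apply]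
    rcases h3 with h3 | h3
    · rw [h3, h3]
    · rw [h3, h3, map_neg, neg_neg]
  have h5 : ρ' (γ ^ (2 * n)) = g.conj (ρ (γ ^ (2 * n))) := by
    ext v
    rw [LinearEquiv.conj_apply_apply, h4, LinearEquiv.apply_symm_apply]
  rw [h5, LinearEquiv.charpoly_conj]

end data

section family

variable (Γ : Type) [Group Γ] (V : ℕ → Type) [∀ ℓ, AddCommGroup (V ℓ)] [∀ (ℓ : ℕ) [Fact ℓ.Prime], Module ℚ_[ℓ] (V ℓ)]
  [∀ (ℓ : ℕ) [Fact ℓ.Prime], FiniteDimensional ℚ_[ℓ] (V ℓ)]

/-- A family of abelian varieties `A_t` over a number field with Galois group `Γ`, with `d` integral parameters, for `t` in a set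
`U ⊆ ℤ^d`; `ρ t ℓ` is the action of `Γ` on the rational Tate module `V ℓ`. For every prime number `p` there are a Frobenius element `γ p`
at a place above `p` and a set `good p` of residue classes modulo `p`; the integral points in these classes belong to `U`, and for
`p ≠ ℓ` the characteristic polynomial of the power `γ p ^ n` on the Tate module is a polynomial `Frob p n x` with rational coefficients
which depends only on the residue class `x` modulo `p` of the integral point. -/
structure Family (d : ℕ) where
  U : Set (Fin d → ℤ)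
  good : ∀ p : ℕ, Set (Fin d → ZMod p)
  mem : ∀ p : ℕ, p.Prime → ∀ t : Fin d → ℤ, red p t ∈ good p → t ∈ U
  ρ : (Fin d → ℤ) → ∀ (ℓ : ℕ) [Fact ℓ.Prime], Representation ℚ_[ℓ] Γ (V ℓ)
  γ : ℕ → Γ
  Frob : ∀ p : ℕ, ℕ → (Fin d → ZMod p) → ℚ[X]
  charpoly : ∀ p : ℕ, p.Prime → ∀ (ℓ : ℕ) [Fact ℓ.Prime], p ≠ ℓ → ∀ t : Fin d → ℤ, red p t ∈ good p →
    ∀ n : ℕ, HasCharpoly (ρ t ℓ) (γ p ^ n) (Frob p n (red p t))

variable {Γ V}

/-- The good residue classes `x` modulo `p` at which no power of the Frobenius element has the same characteristic polynomial as at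
the residue class `x'`. -/
def unlike {d : ℕ} (A : Family Γ V d) (p : ℕ) (x' : Fin d → ZMod p) : Set (Fin d → ZMod p) :=
  {x | x ∈ A.good p ∧ ∀ n : ℕ, 0 < n → A.Frob p n x ≠ A.Frob p n x'}

end family

/-- The integers `s i * N i` (`s i` is a sign), after the digits of `N i` in base `b` at the positions in `S i` have been replaced
by the digits `f i`. -/
def changed (b K : ℕ) {d : ℕ} (s : Fin d → ℤ) (N : Fin d → ℕ) (f : Fin d → ℕ → ℕ) (S : Fin d → Finset ℕ) : Fin d → ℤ :=
  fun i => s i * ((∑ j ∈ Finset.range K, (if j ∈ S i then f i j else N i / b ^ j % b) * b ^ j : ℕ) : ℤ)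

/-- `s i` are signs, `N i` has at most `K` digits, and `f i j` is a digit different from the digit number `j` of `N i`. -/
def Admissible (b K : ℕ) {d : ℕ} (s : Fin d → ℤ) (N : Fin d → ℕ) (f : Fin d → ℕ → ℕ) : Prop :=
  (∀ i, s i = 1 ∨ s i = -1) ∧ (∀ i, N i < b ^ K) ∧ ∀ i j, f i j < b ∧ f i j ≠ N i / b ^ j % b

/-- The choices of `r` of the `K` positions for each of `d` integers; their number is `C(K, r) ^ d`. -/
def choices (d r K : ℕ) : Finset (Fin d → Finset ℕ) :=
  Fintype.piFinset (fun _ => Finset.powersetCard r (Finset.range K))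

open Classical in
/-- **The points of an isogeny class are rare near every integral point, few digits being changed, uniformly in the class.** -/
theorem result {Γ : Type} [Group Γ] {V : ℕ → Type} [∀ ℓ, AddCommGroup (V ℓ)] [∀ (ℓ : ℕ) [Fact ℓ.Prime], Module ℚ_[ℓ] (V ℓ)]
    [∀ (ℓ : ℕ) [Fact ℓ.Prime], FiniteDimensional ℚ_[ℓ] (V ℓ)] {d : ℕ} (A : Family Γ V d)
    (P : ℕ → Prop) (κ θ : ℝ) (hκ : 0 < κ) (hθ : 0 < θ)
    (hP : ∀ p, P p → p.Prime ∧ ∀ x' : Fin d → ZMod p, κ * (p : ℝ) ^ d ≤ ((unlike A p x').ncard : ℝ))
    (hcount : ∃ y₀ : ℕ, ∀ y : ℕ, y₀ ≤ y → (y : ℝ) ^ θ ≤ (({p : ℕ | P p ∧ p ≤ y}).ncard : ℝ)) :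
    ∀ (b : ℕ), 2 ≤ b → ∀ B₀ : ℝ, 0 < B₀ →
      ∃ C : ℝ, 0 < C ∧ ∃ K₀ : ℕ, ∀ K : ℕ, K₀ ≤ K → ∀ r : ℕ, C * Real.log K ≤ r → 2 * r ≤ K →
      -- every integral point with coordinates with at most `K` digits and all new digits
      ∀ (s : Fin d → ℤ) (N : Fin d → ℕ) (f : Fin d → ℕ → ℕ), Admissible b K s N f →
      -- every `ℓ` and every abelian variety over a finite extension
      ∀ (ℓ : ℕ) [Fact ℓ.Prime] (Γ₀ : Subgroup Γ) (σ : Representation ℚ_[ℓ] Γ₀ (V ℓ)),
        (((choices d r K).filter (fun S => changed b K s N f S ∈ A.U ∧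
          Isogenous (A.ρ (changed b K s N f S) ℓ) σ)).card : ℝ) ≤ (K : ℝ) ^ (-B₀) * (K.choose r : ℝ) ^ d := by
  intro b hb B₀ hB₀
  obtain ⟨C, hC, K₀, h⟩ := Pool.Agent.Q328.VD.window 1 b hb B₀ 1 κ θ hB₀ one_pos hκ hθ d P (fun p hp => (hP p hp).1) hcount
  refine ⟨C, hC, K₀, fun K hK r hr hrK s N f hA ℓ _ Γ₀ σ => ?_⟩
  obtain ⟨I, hI⟩ : ∃ I : Finset (Fin d → Finset ℕ), I = (choices d r K).filter (fun S => changed b K s N f S ∈ A.U ∧
    Isogenous (A.ρ (changed b K s N f S) ℓ) σ) := ⟨_, rfl⟩
  rw [← hI]
  have hI1 : ∀ S ∈ I, S ∈ choices d r K ∧ Isogenous (A.ρ (changed b K s N f S) ℓ) σ := by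
    intro S hS
    rw [hI, Finset.mem_filter] at hS
    exact ⟨hS.1, hS.2.2⟩
  -- one residue class of the set for every prime number
  have hx : ∀ p : ℕ, ∃ x' : Fin d → ZMod p, (∃ S ∈ I, red p (changed b K s N f S) ∈ A.good p) →
      ∃ S ∈ I, red p (changed b K s N f S) ∈ A.good p ∧ red p (changed b K s N f S) = x' := by
    intro p
    by_cases h1 : ∃ S ∈ I, red p (changed b K s N f S) ∈ A.good p
    · obtain ⟨S, hS, h2⟩ := h1
      exact ⟨red p (changed b K s N f S), fun _ => ⟨S, hS, h2, rfl⟩⟩
    · exact ⟨0, fun h2 => absurd h2 h1⟩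
  choose x' hx' using hx
  have h2 := h K hK r hr hrK (fun p => unlike A p (x' p)) (fun p hp _ _ => by
    have := (hP p hp).2 (x' p)
    rwa [← Nat.card_coe_set_eq] at this) N hA.2.1 s hA.1 f hA.2.2
  refine le_trans ?_ h2
  refine Nat.cast_le.2 (Finset.card_le_card fun S hS => Finset.mem_filter.2 ⟨(hI1 S hS).1, ?_⟩)
  have hsub : {p : ℕ | P p ∧ (K : ℝ) ^ ((1 : ℝ) * θ / 4) < p ∧ (p : ℝ) ≤ (K : ℝ) ^ (1 : ℝ) ∧
      red p (changed b K s N f S) ∈ unlike A p (x' p)} ⊆ {ℓ} := by
    rintro p ⟨hp, -, -, hpS⟩
    rw [Set.mem_singleton_iff]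
    by_contra hpl
    obtain ⟨S', hS', hg', hx''⟩ := hx' p ⟨S, hS, hpS.1⟩
    obtain ⟨n, hn, h3⟩ := charpoly_eq (hI1 S hS).2 (hI1 S' hS').2 (A.γ p)
    have h4 := A.charpoly p (hP p hp).1 ℓ hpl _ hpS.1 n
    have h5 := A.charpoly p (hP p hp).1 ℓ hpl _ hg' n
    unfold HasCharpoly at h4 h5
    rw [h4, h5] at h3
    have h6 := Polynomial.map_injective _ (algebraMap ℚ ℚ_[ℓ]).injective h3
    rw [hx''] at h6
    exact hpS.2 n hn h6
  have h7 := Set.ncard_le_ncard hsub (Set.finite_singleton ℓ)
  rw [Set.ncard_singleton] at h7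
  exact h7

end Pool.Agent.Results.MP_7e5527_ag.FewDigitOrbits
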