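import Pool.Agent.Q311.LN.Sub

/-!
# Points which correspond to a fixed point of another Shimura datum by small linear maps are few

Let `V` be a subvariety of a Shimura variety `Γ \ X⁺` of the group `G`, and `U` a chart of `V`, an open set in an affine
space. For a rational representation of `G` of dimension `|H|` (for the question: the Lie algebra of `G^ad`) the points `x`
of `U` give Hodge structures on `ℚ ^ H`; let `F x` be a piece of the Hodge filtration, spanned by the columns of a matrix of
analytic functions (for the Lie algebra: `F⁰`, so that the rational Lie subalgebras in `F⁰` are zero or belong to tori). Let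
`(M, X_M)` be any other Shimura datum and `x` a point of `X_M`, with the corresponding piece of the Hodge filtration of
the Lie algebra of `M^ad`, a subspace of `ℂ ^ m` spanned by the columns of a complex matrix `B` (no condition on the point
`x`, its coordinates are arbitrary complex numbers). If the point `s` of `V` is in the set `Σ(M, X_M, x)` of the problem
then the differential of the homomorphism `φ : M^ad → M_s^ad` gives a rational linear map `L` with `L B ⊆ F s`. If
`s` is a special point then a rational vector of the Lie algebra of its Mumford-Tate group is in `F⁰`, so the same holds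
with `m = 1` and `B = (1)`.

We consider the points `s` with coordinates in number fields of degree at most `ω T` and of height at most `T` and maps
`L` with integral coefficients of size at most `T ^ ω T` (`ω T → ∞`). Outside few hypersurfaces of small degree,
`L B ⊆ F s` implies `L B ⊆ γ F s` for all `γ` in the monodromy group. If the intersection of the subspaces `γ F x` is zero,
as in the case of the Lie algebra of an adjoint simple group and a Hodge generic `V` of positive dimension, then
there are no nonzero `L B`. So the points of `V` in `Σ(M, X_M, x)` with such a small linear map `L` are few. The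
bounds do not depend on `M`, `X_M` and `x` (as long as `m` times the number of columns of `B` is at most `ω T`).
-/

set_option autoImplicit false

open Filter NumberField Pool.Agent.Q311.LN
open Pool.Agent.Y890.MV (InnerM RegularM)

namespace Pool.Agent.Results.MP_7e5527_ag.BoundedWitnesses

/-- the span of the columns -/
def space {H C : Type} (A : Matrix H C ℂ) : Submodule ℂ (H → ℂ) := Submodule.span ℂ (Set.range fun c h => A h c)

/-- the matrix `L B` -/
noncomputable def image {H : Type} {m d : ℕ} {K : Type} [Field K] [NumberField K] (io : K →+* ℂ)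
    (L : Matrix H (Fin m) (𝓞 K)) (B : Matrix (Fin m) (Fin d) ℂ) : Matrix H (Fin d) ℂ :=
  L.map (fun c => io (c : K)) * B

/-- the columns of `L B` are in the span of the columns of `A` -/
def Sends {H C : Type} {m d : ℕ} {K : Type} [Field K] [NumberField K] (io : K →+* ℂ)
    (L : Matrix H (Fin m) (𝓞 K)) (B : Matrix (Fin m) (Fin d) ℂ) (A : Matrix H C ℂ) : Prop :=
  ∀ j, (fun h => image io L B h j) ∈ space A

/-- `γ` preserves the polynomial relations over `ℂ[x]` between the entries of `F x`: all of them are relations between
the entries of `γ F x` (for instance, `γ` is in the monodromy group) -/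
def Preserves {X H C : Type} [Fintype H] (U : Set (X → ℂ)) (F : (X → ℂ) → Matrix H C ℂ) (γ : Matrix H H ℂ) : Prop :=
  ∀ p : MvPolynomial (H × C) (MvPolynomial X ℂ),
    (∀ x ∈ U, MvPolynomial.eval₂ (MvPolynomial.eval x) (fun i => F x i.1 i.2) p = 0) →
    ∀ x ∈ U, MvPolynomial.eval₂ (MvPolynomial.eval x) (fun i => (γ * F x) i.1 i.2) p = 0

/-- the points with coordinates in `K` of height at most `T`, of norm at most `k` and at distance at least `1 / k` from the
complement of `U`, such that some matrix `L` with entries in the integers of `K`, all conjugates of which are at most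
`T ^ k`, sends `B` into `F s`, but not into all `γ F s` -/
def Exceptional {X H C : Type} [Fintype X] [Fintype H] (U : Set (X → ℂ)) (F : (X → ℂ) → Matrix H C ℂ)
    (Γ : Set (Matrix H H ℂ)) {m d : ℕ} (B : Matrix (Fin m) (Fin d) ℂ) (k : ℕ) (K : Type) [Field K] [NumberField K]
    (io : K →+* ℂ) (T : ℝ) : Set (X → K) :=
  {s | (∀ j, Y120.HtLe K T (s j)) ∧ (fun j => io (s j)) ∈ InnerM U k ∧
    ∃ L : Matrix H (Fin m) (𝓞 K), (∀ h a (φ : K →+* ℂ), ‖φ (L h a : K)‖ ≤ T ^ k) ∧
      Sends io L B (F fun j => io (s j)) ∧ ∃ γ ∈ Γ, ¬ Sends io L B (γ * F fun j => io (s j))}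

/-- the points such that some matrix `L` of this size with `L B ≠ 0` sends `B` into `F s` -/
def Witnessed {X H C : Type} [Fintype X] (U : Set (X → ℂ)) (F : (X → ℂ) → Matrix H C ℂ)
    {m d : ℕ} (B : Matrix (Fin m) (Fin d) ℂ) (k : ℕ) (K : Type) [Field K] [NumberField K]
    (io : K →+* ℂ) (T : ℝ) : Set (X → K) :=
  {s | (∀ j, Y120.HtLe K T (s j)) ∧ (fun j => io (s j)) ∈ InnerM U k ∧
    ∃ L : Matrix H (Fin m) (𝓞 K), (∀ h a (φ : K →+* ℂ), ‖φ (L h a : K)‖ ≤ T ^ k) ∧
      image io L B ≠ 0 ∧ Sends io L B (F fun j => io (s j))}

/-- Let `U` be a connected open subset of `ℂ ^ X` and `F x`, `x ∈ U`, matrices of analytic functions with linearly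
independent columns, such that `ℂ(x)` is algebraically closed in the field generated by `x` and the entries. Let `Γ` be a
set of invertible matrices which preserve the polynomial relations between the entries. There is `ω → ∞` such that for
all large `T`, all number fields `K` of degree at most `ω T`, all embeddings, and all complex `m × d`-matrices `B`, `m`,
`d` arbitrary with `m * d ≤ ω T`: the exceptional points lie on at most `T ^ (1 / ω T)` hypersurfaces of degree at most
`T ^ (1 / ω T)`, and there are at most `T ^ (1 / ω T) * N ^ (|X| - 1)` of them, `N` being the number of elements of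
`K` of height at most `T`. If the intersection of the spaces spanned by the columns of `γ F x`, `γ ∈ Γ`, is zero for all
`x ∈ U` then the same holds for the points `s` such that some small matrix `L` with `L B ≠ 0` sends `B` into `F s`. -/
theorem result {X H C : Type} [Fintype X] [DecidableEq X] [Nonempty X] [Fintype H] [DecidableEq H] [Fintype C]
    [DecidableEq C] (U : Set (X → ℂ)) (hU : IsPreconnected U) (hUo : IsOpen U) (hne : U.Nonempty)
    (F : (X → ℂ) → Matrix H C ℂ) (hF : ∀ h c, AnalyticOnNhd ℂ (fun x => F x h c) U)
    (hcol : ∀ x ∈ U, LinearIndependent ℂ fun c h => F x h c)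
    (hreg : RegularM U fun (i : H × C) x => F x i.1 i.2) (Γ : Set (Matrix H H ℂ))
    (hΓ : ∀ γ ∈ Γ, IsUnit γ ∧ Preserves U F γ) :
    ∃ (ω : ℝ → ℕ) (T₀ : ℝ), Tendsto ω atTop atTop ∧ Monotone ω ∧ ∀ T, T₀ ≤ T → 0 < ω T ∧
      ∀ (K : Type) [Field K] [NumberField K], Module.finrank ℚ K ≤ ω T → ∀ (io : K →+* ℂ) (m d : ℕ)
        (B : Matrix (Fin m) (Fin d) ℂ), m * d ≤ ω T →
        Few (ω T) K io T (Exceptional U F Γ B (ω T) K io T) ∧
        ((∀ x ∈ U, ∀ v, (∀ γ ∈ Γ, v ∈ space (γ * F x)) → v = 0) →
          Few (ω T) K io T (Witnessed U F B (ω T) K io T)) := by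
  classical
  obtain ⟨ω, T₀, h1, h2, h3⟩ := sub_main hU hUo hne hF hreg hcol Γ hΓ
  refine ⟨ω, T₀, h1, h2, fun T hT => ⟨(h3 T hT).1, fun K _ _ hK io m d B hmd => ?_⟩⟩
  obtain ⟨e⟩ := Function.Embedding.nonempty_of_card_le (α := Fin m × Fin d) (β := Fin (ω T))
    (by rw [Fintype.card_prod, Fintype.card_fin, Fintype.card_fin, Fintype.card_fin]; exact hmd)
  let ξ : Fin (ω T) → ℂ := Function.extend e (fun p => B p.1 p.2) 0
  have hpos : 0 < ω T := (h3 T hT).1
  have hfew := (h3 T hT).2 K hK io ξ
  have hmono : ∀ S : Set (X → K), S ⊆ ExcSub U F Γ (ω T) K io ξ T → Few (ω T) K io T S := fun S hS =>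
    ⟨hfew.1.mono le_rfl le_rfl (Set.image_mono hS), hfew.2.1.subset hS,
      le_trans (by exact_mod_cast Set.ncard_le_ncard hS hfew.2.1) hfew.2.2⟩
  have hE : Exceptional U F Γ B (ω T) K io T ⊆ ExcSub U F Γ (ω T) K io ξ T := by
    rintro s ⟨hs1, hs2, L, hL1, hL2, γ, hγ, hL3⟩
    obtain ⟨j, hj⟩ := not_forall.1 hL3
    have hT0 : (0 : ℝ) ≤ T ^ ω T := by
      by_cases hH : Nonempty (H × Fin m)
      · obtain ⟨h, a⟩ := hH
        exact (norm_nonneg _).trans (hL1 h a io)
      · exfalso
        apply hj
        have h9 : (fun h => image io L B h j) = 0 := by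
          funext h
          unfold image
          rw [Matrix.mul_apply]
          refine Finset.sum_eq_zero fun a _ => ?_
          exact absurd ⟨(h, a)⟩ hH
        rw [h9]
        exact Submodule.zero_mem _
    let c : H → Fin (ω T) → 𝓞 K := fun h a => Function.extend e (fun p => if p.2 = j then L h p.1 else 0) 0 a
    have hv : vec io ξ c = fun h => image io L B h j := by
      funext h
      unfold vec image
      rw [Matrix.mul_apply]
      have h4 := sum_extend e io (fun p : Fin m × Fin d => if p.2 = j then L h p.1 else 0) (fun p => B p.1 p.2)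
      have h5 : ∑ a, ξ a * io (c h a : K) = ∑ a, io (c h a : K) * ξ a := Finset.sum_congr rfl fun a _ => mul_comm _ _
      rw [h5]
      refine h4.trans ?_
      rw [Fintype.sum_prod_type]
      refine Finset.sum_congr rfl fun a _ => ?_
      rw [Finset.sum_eq_single j]
      · rw [if_pos rfl]
        rfl
      · intro b _ hb
        rw [if_neg hb]
        simp
      · intro hj'
        exact absurd (Finset.mem_univ j) hj'
    refine ⟨hs1, hs2, c, fun h a φ => ?_, ?_, γ, hγ, ?_⟩
    · by_cases ha : ∃ p, e p = a
      · obtain ⟨p, rfl⟩ := ha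
        simp only [c, e.injective.extend_apply]
        split_ifs
        · exact hL1 h p.1 φ
        · simpa using hT0
      · simp only [c, Function.extend_apply' _ _ _ ha]
        simpa using hT0
    · rw [hv]
      exact hL2 j
    · rw [hv]
      exact hj
  refine ⟨hmono _ hE, fun hint => hmono _ (Set.Subset.trans ?_ hE)⟩
  rintro s ⟨hs1, hs2, L, hL1, hL0, hL2⟩
  refine ⟨hs1, hs2, L, hL1, hL2, ?_⟩
  by_contra hcon
  push Not at hcon
  have hsU : (fun j => io (s j)) ∈ U := hs2.2 (Metric.mem_ball_self (by positivity))
  apply hL0
  ext h j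
  have h4 := hint _ hsU (fun h => image io L B h j) fun γ hγ => hcon γ hγ j
  exact congrFun h4 h

end Pool.Agent.Results.MP_7e5527_ag.BoundedWitnesses
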