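import Pool.Agent.Q57.ZP.Unit
import Pool.Agent.Q77.ZP.Twist
import Pool.Agent.Q41.ZP.Sig
import Pool.Agent.Results.MP_d83ecd_ag.LocalCriterion

/-!
# MP_7e5527_ag: subvarieties of products of modular curves without points of `Σ (M, X_M, x)`, for all
Shimura data `(M, X_M)` and almost all `x`

**The Shimura variety** is `Y(1)^n`, identified with `ℂ^n` by the elliptic modular function
`jj = j = E₄³ / Δ` (`G = GL_2^n`, `X^+ = ℍ^n`, `Γ = SL_2(ℤ)^n`), or a product of modular curves of any
levels, which are finite over it.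

**The sets `Σ`.** Let `(M, X_M)` be any Shimura datum, `x ∈ X_M` Hodge generic and `z_1, …, z_s` the
components of `x^ad` at the `ℚ`-simple factors of `M^ad` which are isomorphic to `PGL_2` (moved to
the upper half plane `ℍ`). The adjoint Mumford-Tate group of a point of `ℍ^n` is `PGL_2^r`, where `r`
is the number of isogeny classes of its coordinates without complex multiplication, and a surjective
homomorphism `M^ad → PGL_2^r` is given by `r` of the factors of `M^ad`. So `Σ (M, X_M, x)` is the set
`Sigma z` of the points all of whose coordinates are special, or of the form `j (g z_l)` with an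
integral matrix `g` of positive determinant, for some `l`.

**Rings and scalings.** Let `F` be a finite set of complex numbers, `P ⊆ F`, and let `K` be a countable
field that contains `F`. For `t ∈ ℂ` let `R_t` (`ringR`) be the ring generated by `F`, `t` and the
numbers `1 / (t - b)`, `b ∈ P`, and let `S_t` (`ringS`) be the integral closure of `R_t` in the field of
complex numbers. Let `D_1, …, D_M ⊆ F` be disjoint from `P`. We consider the scalings
`c_i (t) = ∏_α (t - α) ^ (e_i (α))`, the product over all the elements `α` of the union of the sets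
`D_l`, where the exponents are positive and independent (`Independent`):
`q e_i (α) e_j (α) e_i (β) e_j (β)` is not a square for `α ∈ D_l`, `β ∈ D_{l'}`, `l ≠ l'`, `i ≠ j`,
`1 ≤ q ≤ T^8`.

**Subvarieties.** Let `V` be given by
* a projective algebraic set `B ⊆ P^N`, defined by forms over `S_t`,
* quotients `f_i = A_i / B_i` of forms of the same degree `d_i` over `S_t`, whose divisors are in general
  position over all the points of `Spec S_t` (`GeneralOver`): for every homomorphism of `S_t` to a
  field no point of `B` over this field lies on `m + 1` of the divisors (`m` is the expected dimension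
  of the image),
* functions `s_i` integral over `S_t[j]`, `R_i (s_i, j) = 0` with `R_i` monic of degree at most `T`
  whose nonzero coefficients are units of `S_t` (`UnitCoefficients`; level one: `R_i = S - J`,
  `s_i = j`, `T = 1`).
`V` is the set of all `x` such that for some `y ∈ B` and some `s` we have `R_i (s_i, x_i) = 0` and
`c_i (t) s_i = A_i (y) / B_i (y)`.

**Theorem.** Let `L = n (n - 1) / 2 + 1`.
1. If the union of any `M - L + 1` or more of the sets `D_l` has at least three elements, then
   for all but finitely many `t` in the field generated by `F`, and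
2. if the union of any `M - L + 1` or more of the sets `D_l` has at least two elements, then
   for all but finitely many `t` in the ring generated by `F`,

the following is true for ALL such `V`, ALL independent exponents, ALL `s` and ALL `z_1, …, z_s ∈ ℍ`:
if the number of the `l` with `j (z_l) ∉ S_t` is less than `n - m + τ`, where `τ` is the
transcendence degree of `j (z_1), …, j (z_s)` over `K`, then `V ∩ Σ = ∅`. So Q1 holds for these `V` and
`(M, X_M, x)`, with the empty union. Special cases (`m < n`):
* `M^ad` has less than `n - m` factors `PGL_2` (no condition on `x`),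
* `j (z_1), …, j (z_s)` are algebraically independent over `K` (any `s`),
* all `j (z_l)` are algebraic integers, or in `S_t` (any `s`).

The finite exceptional set depends only on `F`, `P` and the sets `D_l`; it is the same for all `V` and
all `(M, X_M, x)`.

The proof shows, with the local criterion of the starting file `MP_d83ecd_ag.LocalCriterion` over the
ring `S_t` and the finiteness of the number of solutions of unit equations in finitely generated
rings, that these `V` have no atypical intersections, and applies this to the smallest special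
subvariety, with constant coordinates in `S_t`, through a point of `V ∩ Σ`.
-/

set_option autoImplicit false

namespace Pool.Agent.Results.MP_7e5527_ag.ImagesAvoidSigma

open MvPolynomial H294ZP UpperHalfPlane
open Pool.Agent.Q41.ZP (Related)
open Pool.Agent.Results.MP_d83ecd_ag.LocalCriterion
  (scaledImage InGeneralPosition NoAtypical IndependentExponents)

/-- The points of `Y(1)^n` all of whose coordinates are special or of the form `j (g z_l)`. -/
def Sigma (n : ℕ) {s : ℕ} (z : Fin s → ℍ) : Set (Fin n → ℂ) :=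
  {x | ∀ i, (∃ τ : ℍ, IsCM τ ∧ x i = jj τ) ∨ ∃ l, Related (x i) (z l)}

/-- `X`, regarded as a set of dimension `m`, has no point of `Σ` for all `z_1, …, z_s` such that less
than `n - m + τ` of the `j (z_l)` are not in `S`, where `τ` is the transcendence degree of the
`j (z_l)` over `K`. -/
def AvoidsSigma (S : Set ℂ) (K : Subfield ℂ) {n : ℕ} (m : ℕ) (X : Set (Fin n → ℂ)) : Prop :=
  ∀ (s : ℕ) (z : Fin s → ℍ) (I T : Finset (Fin s)), (∀ l, l ∉ I → jj (z l) ∈ S) →
    AlgebraicIndependent K (fun l : T => jj (z l)) → I.card + m < n + T.card →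
    X ∩ Sigma n z = ∅

/-- The ring `R_t` generated by `F`, `t` and the `1 / (t - b)`, `b ∈ P`. -/
def ringR (F P : Finset ℂ) (t : ℂ) : Subring ℂ :=
  Subring.closure (insert t ((F : Set ℂ) ∪ (fun b => (t - b)⁻¹) '' (P : Set ℂ)))

/-- The ring `S_t`, the integral closure of `R_t` in the field of complex numbers. -/
noncomputable def ringS (F P : Finset ℂ) (t : ℂ) : Subalgebra (ringR F P t) ℂ :=
  integralClosure (ringR F P t) ℂ

/-- The divisors of the `A i / B i` are in general position over all the points of `Spec S`: for every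
homomorphism of `S` to a field no point of `B` over this field lies on `m + 1` of them. -/
def GeneralOver {S : Type} [CommRing S] {N n : ℕ} {κ : Type} (m : ℕ)
    (G : κ → MvPolynomial (Fin (N + 1)) S)
    (A B : Fin n → MvPolynomial (Fin (N + 1)) S) : Prop :=
  ∀ (E : Type) [Field E] (φ : S →+* E), InGeneralPosition φ m G A B

/-- `R` is monic, has degree at most `T` in both variables, and its nonzero coefficients are units. -/
def UnitCoefficients {S : Type} [CommRing S] (T : ℕ) (R : Polynomial (Polynomial S)) : Prop :=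
  R.Monic ∧ ∀ u w, (R.coeff u).coeff w ≠ 0 → u ≤ T ∧ w ≤ T ∧ IsUnit ((R.coeff u).coeff w)

/-- The exponents at the elements of the sets `D l` are positive and independent. -/
def Independent {n M : ℕ} (T : ℕ) (D : Fin M → Finset ℂ) (e : ℂ → Fin n → ℕ) : Prop :=
  (∀ l, ∀ α ∈ D l, ∀ i, 0 < e α i) ∧ ∀ l l', l ≠ l' → ∀ α ∈ D l, ∀ β ∈ D l', ∀ i j, i ≠ j →
    ∀ q, 0 < q → q ≤ T ^ 8 → ¬ IsSquare (q * (e α i * e α j * (e β i * e β j)))

/-- All images of projective algebraic sets under maps in general position over the ring `S ⊂ ℂ`,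
scaled by the `c e` for independent exponents `e`, have the property `Q`. -/
def AllImages {S : Type} [CommRing S] (σ : S →+* ℂ) {n M : ℕ} (D : Fin M → Finset ℂ)
    (c : (ℂ → Fin n → ℕ) → Fin n → ℂ) (Q : ℕ → Set (Fin n → ℂ) → Prop) : Prop :=
  ∀ (κ : Type) (N m T : ℕ) (G : κ → MvPolynomial (Fin (N + 1)) S)
    (A B : Fin n → MvPolynomial (Fin (N + 1)) S) (d : Fin n → ℕ)
    (R : Fin n → Polynomial (Polynomial S)) (c' : Fin n → S) (e : ℂ → Fin n → ℕ),
    (∀ l, ∃ w, (G l).IsHomogeneous w) →
    (∀ i, (A i).IsHomogeneous (d i)) → (∀ i, (B i).IsHomogeneous (d i)) →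
    GeneralOver m G A B → (∀ i, UnitCoefficients T (R i)) → Independent T D e →
    (∀ i, σ (c' i) = c e i) → Q m (scaledImage σ G A B R c')

/-- All images of projective algebraic sets under maps in general position over `S_t`, scaled by the
`∏ α, (t - α) ^ e α i`, have no points of `Σ`. -/
def AllGood (K : Subfield ℂ) (n : ℕ) {M : ℕ} (F P : Finset ℂ) (D : Fin M → Finset ℂ) (t : ℂ) :
    Prop :=
  AllImages (n := n) (ringS F P t).val.toRingHom D
    (fun e i => ∏ α ∈ Finset.univ.biUnion D, (t - α) ^ e α i)
    (AvoidsSigma (ringS F P t : Set ℂ) K)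

/-- A set without atypical intersections has no points of `Σ`. -/
theorem avoids {S : Type} [CommRing S] (σ : S →+* ℂ) (K : Subfield ℂ)
    (hK : ∀ a, IsAlgebraic K (σ a)) {n m : ℕ} (X : Set (Fin n → ℂ)) (hX : NoAtypical σ K m X) :
    AvoidsSigma (Set.range σ) K m X := by
  classical
  intro s z I T hI hT hlt
  rw [Set.eq_empty_iff_forall_notMem]
  rintro x ⟨hx, hxz⟩
  have hTI : T ⊆ I := by
    intro l hl
    by_contra h
    obtain ⟨a, ha⟩ := hI l h
    have h1 : Transcendental K (jj (z l)) := hT.transcendental ⟨l, hl⟩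
    exact h1 (ha ▸ hK a)
  have hgood : ∀ i, ((∃ τ : ℍ, IsCM τ ∧ x i = jj τ) ∨ σ.IsIntegralElem (x i)) ∨
      ∃ l ∈ I, Related (x i) (z l) := by
    intro i
    rcases hxz i with h | ⟨l, h⟩
    · exact Or.inl (Or.inl h)
    · by_cases hl : l ∈ I
      · exact Or.inr ⟨l, hl, h⟩
      · left; right
        obtain ⟨a, ha⟩ := hI l hl
        obtain ⟨p, hp, hpe⟩ := h.isIntegral
        -- the coefficients of `p` are polynomials in `j (z l)`
        have hle : ∀ w ∈ (Algebra.adjoin ℤ {jj (z l)} : Subalgebra ℤ ℂ), w ∈ σ.range := by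
          intro w hw
          refine Algebra.adjoin_induction (fun a' ha' => ?_) (fun a' => ?_)
            (fun a b _ _ => add_mem) (fun a b _ _ => mul_mem) hw
          · rw [Set.mem_singleton_iff.1 ha']
            exact ⟨a, ha⟩
          · rw [eq_intCast]
            exact intCast_mem _ a'
        obtain ⟨q, hq1, -, hq2⟩ := Polynomial.lifts_and_natDegree_eq_and_monic (f := σ)
          (p := p.map (algebraMap (Algebra.adjoin ℤ {jj (z l)} : Subalgebra ℤ ℂ) ℂ))
          ((Polynomial.lifts_iff_coeff_lifts _).2 fun k => by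
            rw [Polynomial.coeff_map]
            exact hle _ (p.coeff k).2) (hp.map _)
        refine ⟨q, hq2, ?_⟩
        rw [← Polynomial.eval_map, hq1, Polynomial.eval_map]
        exact hpe
  obtain ⟨r, cls, mat, const, z', S', h1, h2, h3, h4, h5, h6⟩ :=
    Pool.Agent.Q41.ZP.sigma_core K
      (fun w => (∃ τ : ℍ, IsCM τ ∧ w = jj τ) ∨ σ.IsIntegralElem w) (c₀ := 0)
      (Or.inr ⟨Polynomial.X, Polynomial.monic_X, by simp⟩) x z I T hgood hTI hT
  have h7 := (hX r ⟨cls, h1, mat, h2, const, h3⟩).2 x ⟨hx, z', h4⟩ S' h5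
  omega

theorem val_one (V : ValuationSubring ℂ) {t a b : ℂ} (h1 : V.valuation (t - a) < 1)
    (hab : a ≠ b) (h2 : a - b ∈ V) (h3 : (a - b)⁻¹ ∈ V) : V.valuation (t - b) = 1 := by
  have h4 : V.valuation (a - b) = 1 := by
    have e2 := (ValuationSubring.valuation_le_one_iff _ _).2 h2
    have e3 := (ValuationSubring.valuation_le_one_iff _ _).2 h3
    rw [map_inv₀] at e3
    have h4 : V.valuation (a - b) ≠ 0 := (Valuation.ne_zero_iff _).2 (sub_ne_zero.2 hab)
    exact le_antisymm e2 ((inv_le_one₀ (zero_lt_iff.2 h4)).1 e3)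
  have h6 : t - b = (t - a) + (a - b) := by ring
  rw [h6, Valuation.map_add_eq_of_lt_right _ (by rw [h4]; exact h1), h4]

/-- The places are good for all subvarieties. -/
theorem good (K : Subfield ℂ) [Countable K] (n : ℕ) {M : ℕ} (F P : Finset ℂ)
    (hF : ∀ z ∈ F, z ∈ K) (hPF : P ⊆ F) (D : Fin M → Finset ℂ) (hD : ∀ l, D l ⊆ F)
    (hDP : ∀ l, Disjoint (D l) P) (W : Finset ℂ) (hFW : F ⊆ W)
    (hW : ∀ a ∈ F, ∀ b ∈ F, (a - b)⁻¹ ∈ W) (t : ℂ) (htK : t ∈ K) (htF : t ∉ F)
    (f : Fin (n.choose 2 + 1) → Fin M) (hf : Function.Injective f)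
    (h : ∀ l, ∃ a ∈ D (f l), ¬ Pool.Agent.Y910.Z.Bad (W : Set ℂ) t a) :
    AllGood K n F P D t := by
  classical
  intro κ N m T G A B d R c e hG hA hB hpos hR he hc'
  have hc : ∀ i, (c i : ℂ) = ∏ α ∈ Finset.univ.biUnion D, (t - α) ^ e α i := hc'
  choose a ha hbad using h
  have haF : ∀ l, a l ∈ F := fun l => hD _ (ha l)
  have hplace : ∀ l, ∃ V : ValuationSubring ℂ, V.valuation (t - a l) < 1 ∧ ∀ z ∈ W, z ∈ V := by
    intro l
    obtain ⟨V, h1, h2, -⟩ := Pool.Agent.Y910.Z.exists_place (k := ℂ) (W : Set ℂ) (t := t)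
      (a := a l) (hFW (haF l)) (hbad l) (Empty.elim : Empty → ℂ)
      (algebraicIndependent_empty_type_iff.2 (algebraMap ℂ ℂ).injective)
    exact ⟨V, h1, h2⟩
  have hRK : ringR F P t ≤ K.toSubring := by
    refine Subring.closure_le.2 fun z hz => ?_
    rcases hz with rfl | hz | ⟨b, hb, rfl⟩
    · exact htK
    · exact hF z hz
    · exact K.inv_mem (K.sub_mem htK (hF b (hPF hb)))
  have hSK : ∀ z : ringS F P t, (z : ℂ) ∈ algebraicClosure K ℂ := by
    intro z
    let i : ringR F P t →+* K := (ringR F P t).subtype.codRestrict K fun x => hRK x.2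
    refine mem_algebraicClosure_iff'.2 ?_
    obtain ⟨p, hp, h2⟩ := z.2
    refine ⟨p.map i, hp.map i, ?_⟩
    rw [Polynomial.eval₂_map]
    exact h2
  have hmemR : ∀ {z : ℂ}, z ∈ ringR F P t → z ∈ ringS F P t := fun {z} hz =>
    isIntegral_algebraMap (R := ringR F P t) (A := ℂ) (x := ⟨z, hz⟩)
  have htR : t ∈ ringR F P t := Subring.subset_closure (Set.mem_insert _ _)
  have hFR : ∀ z ∈ F, z ∈ ringR F P t := fun z hz =>
    Subring.subset_closure (Set.mem_insert_of_mem _ (Or.inl hz))
  let U : Finset ℂ := Finset.univ.biUnion D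
  have hUF : ∀ α ∈ U, α ∈ F := by
    intro α hα
    obtain ⟨l, -, hl⟩ := Finset.mem_biUnion.1 hα
    exact hD l hl
  have htα : ∀ α ∈ F, t - α ∈ ringS F P t := fun α hα => hmemR (sub_mem htR (hFR α hα))
  let δ : ℂ → ringS F P t := fun α => if hα : α ∈ F then ⟨t - α, htα α hα⟩ else 1
  have hδ : ∀ α ∈ F, (δ α : ℂ) = t - α := by
    intro α hα
    simp only [δ, dif_pos hα]
  have hcδ : ∀ i, c i = ∏ α ∈ U, δ α ^ e α i := by
    intro i
    apply Subtype.val_injective
    rw [hc i]
    show _ = (ringS F P t).val.toRingHom (∏ α ∈ U, δ α ^ e α i)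
    rw [map_prod]
    refine Finset.prod_congr rfl fun α hα => ?_
    rw [map_pow]
    congr 1
    exact (hδ α (hUF α hα)).symm
  have hcount : Countable (algebraicClosure K ℂ).toSubfield :=
    Pool.Agent.Q77.ZP.countable_algClosure K
  have key := Pool.Agent.Results.MP_d83ecd_ag.LocalCriterion.result.1 (ringS F P t) (ringS F P t).val.toRingHom
    Subtype.val_injective (algebraicClosure K ℂ).toSubfield
    (fun z => hSK z) κ N n m T G hG A B d hA hB R (fun i => (hR i).1)
    (fun i u w h0 => ⟨((hR i).2 u w h0).1, ((hR i).2 u w h0).2.1⟩) c (fun l i => e (a l) i)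
    ⟨fun l i => he.1 _ _ (ha l) i, fun l l' hl i j hij q hq hqT =>
      he.2 (f l) (f l') (fun h => hl (hf h)) _ (ha l) _ (ha l') i j hij q hq hqT⟩ fun l => by
      obtain ⟨V, hV1, hV2⟩ := hplace l
      have hFV : ∀ z ∈ F, z ∈ V := fun z hz => hV2 z (hFW hz)
      have htV : t ∈ V := by
        have h1 : t - a l ∈ V := (ValuationSubring.valuation_le_one_iff _ _).1 hV1.le
        have h2 := V.add_mem _ _ h1 (hFV _ (haF l))
        rwa [sub_add_cancel] at h2
      have hval : ∀ b ∈ F, b ≠ a l → V.valuation (t - b) = 1 := by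
        intro b hb hne
        exact val_one V hV1 hne.symm (sub_mem (hFV _ (haF l)) (hFV _ hb))
          (hV2 _ (hW _ (haF l) _ hb))
      have hRV : ∀ z ∈ ringR F P t, z ∈ V := by
        have h1 : ringR F P t ≤ V.toSubring := by
          refine Subring.closure_le.2 fun z hz => ?_
          rcases hz with rfl | hz | ⟨b, hb, rfl⟩
          · exact htV
          · exact hFV z hz
          · refine (ValuationSubring.valuation_le_one_iff _ _).1 ?_
            have hne : b ≠ a l := by
              rintro rfl
              exact Finset.disjoint_left.1 (hDP _) (ha l) hb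
            rw [map_inv₀, hval b (hPF hb) hne, inv_one]
        exact fun z hz => h1 hz
      let r : ringS F P t →+* V :=
        (ringS F P t).val.toRingHom.codRestrict V fun x =>
          Pool.Agent.Q77.ZP.mem_V_of_int V _ hRV x.2
      let red : ringS F P t →+* AlgebraicClosure (IsLocalRing.ResidueField V) :=
        (algebraMap (IsLocalRing.ResidueField V) _).comp ((IsLocalRing.residue V).comp r)
      have hred : ∀ z : ringS F P t, red z = 0 ↔ V.valuation (z : ℂ) < 1 := by
        intro z
        show algebraMap (IsLocalRing.ResidueField V) _ (IsLocalRing.residue V (r z)) = 0 ↔ _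
        rw [map_eq_zero, IsLocalRing.residue_eq_zero_iff, ValuationSubring.valuation_lt_one_iff]
        rfl
      have hδU : ∀ α ∈ U, α ≠ a l → red (δ α) ≠ 0 := by
        intro α hα hne
        rw [Ne, hred, hδ _ (hUF _ hα), hval _ (hUF _ hα) hne]
        exact lt_irrefl _
      refine ⟨{
        F := AlgebraicClosure (IsLocalRing.ResidueField V)
        red := red
        general := hpos _ red
        coeff_ne := fun i u w h0 => (((hR i).2 u w h0).2.2.map red).ne_zero
        ϖ := δ (a l)
        red_ϖ := (hred _).2 (by rw [hδ _ (haF l)]; exact hV1)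
        order := fun i => ?_ }⟩
      refine ⟨1, ∏ α ∈ U.erase (a l), δ α ^ e α i, ?_, ?_, ?_⟩
      · rw [map_one]
        exact one_ne_zero
      · rw [map_prod, Finset.prod_ne_zero_iff]
        intro α hα
        rw [map_pow]
        exact pow_ne_zero _ (hδU _ (Finset.mem_of_mem_erase hα) (Finset.ne_of_mem_erase hα))
      · rw [one_mul, hcδ i]
        exact (Finset.prod_erase_mul U (fun α => δ α ^ e α i)
          (Finset.mem_biUnion.2 ⟨f l, Finset.mem_univ _, ha l⟩)).symm
  have hNo : NoAtypical (ringS F P t).val.toRingHom K m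
      (scaledImage (ringS F P t).val.toRingHom G A B R c) := by
    intro r Z
    obtain ⟨k1, k2⟩ := key r Z
    refine ⟨k1, fun x hx S hS => k2 x hx S ?_⟩
    exact hS.extendScalars (algebraicClosure K ℂ)
  have h1 := avoids (ringS F P t).val.toRingHom K
    (fun a => mem_algebraicClosure_iff.1 (hSK a)) _ hNo
  have h2 : Set.range (ringS F P t).val.toRingHom = (ringS F P t : Set ℂ) := Subtype.range_coe
  rwa [h2] at h1

/-- Images of projective algebraic sets in `Y(1)^n` have no points of `Σ (M, X_M, x)`, for all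
`(M, X_M, x)` with a bound for the number of factors `PGL_2` of `M^ad`, simultaneously for all images
under maps in general position over `S_t`, scaled by the values of polynomials, for all but finitely
many elements `t` of finitely generated fields and rings. -/
theorem result (K : Subfield ℂ) [Countable K] (n : ℕ) {M : ℕ} (F P : Finset ℂ)
    (hF : ∀ z ∈ F, z ∈ K) (hPF : P ⊆ F) (D : Fin M → Finset ℂ) (hD : ∀ l, D l ⊆ F)
    (hDP : ∀ l, Disjoint (D l) P) :
    ((∀ I : Finset (Fin M), M < I.card + (n.choose 2 + 1) → 3 ≤ (I.biUnion D).card) →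
      {t : ℂ | t ∈ Subfield.closure (F : Set ℂ) ∧ ¬ AllGood K n F P D t}.Finite) ∧
    ((∀ I : Finset (Fin M), M < I.card + (n.choose 2 + 1) → 2 ≤ (I.biUnion D).card) →
      {t : ℂ | t ∈ Subring.closure (F : Set ℂ) ∧ ¬ AllGood K n F P D t}.Finite) := by
  classical
  let W : Finset ℂ := F ∪ (F ×ˢ F).image fun x => (x.1 - x.2)⁻¹
  have hFW : F ⊆ W := Finset.subset_union_left
  have hW : ∀ a ∈ F, ∀ b ∈ F, (a - b)⁻¹ ∈ W := fun a ha b hb =>
    Finset.mem_union_right _ (Finset.mem_image.2 ⟨(a, b), Finset.mem_product.2 ⟨ha, hb⟩, rfl⟩)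
  have hclK : Subfield.closure (F : Set ℂ) ≤ K := Subfield.closure_le.2 hF
  have hrf : Subring.closure (F : Set ℂ) ≤ (Subfield.closure (F : Set ℂ)).toSubring :=
    Subring.closure_le.2 Subfield.subset_closure
  refine ⟨fun h3 => ?_, fun h2 => ?_⟩
  · refine (Pool.Agent.Q57.ZP.finite_of_bad (n.choose 2 + 1) W D
      (fun t => t ∈ Subfield.closure (F : Set ℂ))
      (fun I hI => Pool.Agent.Q57.ZP.fin_bad_field W F D I (h3 I hI))
      {t : ℂ | t ∈ Subfield.closure (F : Set ℂ) ∧ ¬ AllGood K n F P D t} (F : Set ℂ)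
      F.finite_toSet ?_).subset fun t ht => ⟨ht.1, ht⟩
    rintro t htF ⟨f, hf, h⟩ ⟨ht, hbad⟩
    exact hbad (good K n F P hF hPF D hD hDP W hFW hW t (hclK ht) htF f hf h)
  · refine (Pool.Agent.Q57.ZP.finite_of_bad (n.choose 2 + 1) W D
      (fun t => t ∈ Subring.closure (F : Set ℂ))
      (fun I hI => Pool.Agent.Q57.ZP.fin_bad_ring W F D I (h2 I hI))
      {t : ℂ | t ∈ Subring.closure (F : Set ℂ) ∧ ¬ AllGood K n F P D t} (F : Set ℂ)
      F.finite_toSet ?_).subset fun t ht => ⟨ht.1, ht⟩
    rintro t htF ⟨f, hf, h⟩ ⟨ht, hbad⟩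
    exact hbad (good K n F P hF hPF D hD hDP W hFW hW t (hclK (hrf ht)) htF f hf h)

end Pool.Agent.Results.MP_7e5527_ag.ImagesAvoidSigma
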